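import Mathlib
import Pool.Agent.K6.H22.VG.Asy

/-!
The growth rate of the number of visibility graphs of simple polygons. The definitions used in the
statement (`IsSimplePolygon`, `visGraph`, `N`, `NGP`) are in `Pool/Agent/H124R2/Vis/Defs.lean`.

Lower bound: take a chain of points on a parabola, closed by a horizontal edge, and cut a narrow
pit just before each of the first `m` points. The pit `i` sees the parabola points up to the `i`-th,
and of the last `M` parabola points it sees exactly those after a threshold that can be chosen
freely. After marking the types of the vertices (at most `4 ^ n` ways) the thresholds can be read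
off from the graph, so `M ^ m ≤ N n * 4 ^ n` with `n = 2 m + M + 2`. Upper bound: Warren's bound for
the number of sign patterns.
-/

set_option autoImplicit false

namespace Pool.Agent.Results.MP_af711c_co.GrowthRate

open Filter Asymptotics

/-- `log₂ N(n) = Θ(n log n)`, where `N(n)` is the number of isomorphism classes of visibility
graphs of simple polygons with `n` vertices. The same holds for simple polygons in general
position (no three vertices collinear). -/
theorem result :
    ((fun n : ℕ => Real.logb 2 (Vis124.N n)) =Θ[atTop] fun n : ℕ => (n : ℝ) * Real.log n) ∧
    ((fun n : ℕ => Real.logb 2 (Vis124.NGP n)) =Θ[atTop] fun n : ℕ => (n : ℝ) * Real.log n) :=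
  Pool.Agent.K6.H22.VG.growth

end Pool.Agent.Results.MP_af711c_co.GrowthRate
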